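import Mathlib

set_option autoImplicit false

namespace Pool.Agent.Results.MP_4aedba_al.NonComplete

open Topology Filter

/-- `τ` is a maximal ring topology on `R`: a non-discrete Hausdorff ring topology such that no
non-discrete Hausdorff ring topology is strictly finer. -/
structure IsMaximalRingTopology (R : Type) [Ring R] (τ : TopologicalSpace R) : Prop where
  isRing : @IsTopologicalRing R τ _
  isT2 : @T2Space R τ
  nonDiscrete : τ ≠ ⊥
  maximal : ∀ τ' : TopologicalSpace R, @IsTopologicalRing R τ' _ → @T2Space R τ' → τ' ≠ ⊥ →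
    τ' ≤ τ → τ' = τ

/-- Completeness for the additive uniformity: every Cauchy filter converges. -/
def IsCompleteTopology (R : Type) [Ring R] (τ : TopologicalSpace R) : Prop :=
  ∀ F : Filter R, F.NeBot → (∀ U ∈ @nhds R τ 0, ∃ A ∈ F, ∀ x ∈ A, ∀ y ∈ A, x - y ∈ U) →
    ∃ x : R, F ≤ @nhds R τ x

/-! ### Existence of maximal ring topologies -/

theorem discrete_of_zero {R : Type} [Ring R] (τ : TopologicalSpace R)
    (hτ : @IsTopologicalRing R τ _) (h : ({0} : Set R) ∈ @nhds R τ 0) : τ = ⊥ := by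
  let _ := τ
  have h1 : IsOpen ({0} : Set R) := by
    rw [isOpen_iff_mem_nhds]
    intro x hx
    rw [Set.mem_singleton_iff.1 hx]; exact h
  have h2 : DiscreteTopology R := discreteTopology_of_isOpen_singleton_zero h1
  exact h2.eq_bot

theorem ring_sInf {R : Type} [Ring R] (C : Set (TopologicalSpace R))
    (hC : ∀ t ∈ C, @IsTopologicalRing R t _) : @IsTopologicalRing R (sInf C) _ := by
  have a1 := continuousAdd_sInf (ts := C) fun t ht => (hC t ht).toContinuousAdd
  have a2 := continuousMul_sInf (ts := C) fun t ht => (hC t ht).toContinuousMul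
  have a3 := continuousNeg_sInf (ts := C) fun t ht => (hC t ht).toContinuousNeg
  exact @IsTopologicalRing.mk R (sInf C) _ (@IsTopologicalSemiring.mk R (sInf C) _ a1 a2) a3

theorem bot_nhds {R : Type} (x : R) : @nhds R ⊥ x = pure x :=
  @nhds_discrete R ⊥ (@DiscreteTopology.mk R ⊥ rfl) ▸ rfl

theorem exists_maximal {R : Type} [Ring R] (τ₀ : TopologicalSpace R)
    (h1 : @IsTopologicalRing R τ₀ _) (h2 : @T2Space R τ₀) (h3 : τ₀ ≠ ⊥) :
    ∃ τ : TopologicalSpace R, IsMaximalRingTopology R τ ∧ τ ≤ τ₀ := by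
  let S : Set (TopologicalSpace R)ᵒᵈ :=
    {τ | @IsTopologicalRing R (OrderDual.ofDual τ) _ ∧ @T2Space R (OrderDual.ofDual τ) ∧
      OrderDual.ofDual τ ≠ ⊥}
  have ih : ∀ c ⊆ S, IsChain (· ≤ ·) c → ∀ y ∈ c, ∃ ub ∈ S, ∀ z ∈ c, z ≤ ub := by
    intro c hc hchain y hy
    let C : Set (TopologicalSpace R) := OrderDual.ofDual '' c
    have hC : ∀ t ∈ C, @IsTopologicalRing R t _ ∧ @T2Space R t ∧ t ≠ ⊥ := by
      rintro t ⟨t', ht', rfl⟩
      exact hc ht'
    refine ⟨OrderDual.toDual (sInf C), ⟨?_, ?_, ?_⟩, ?_⟩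
    · exact ring_sInf C fun t ht => (hC t ht).1
    · have h4 : sInf C ≤ OrderDual.ofDual y := sInf_le ⟨y, hy, rfl⟩
      exact t2Space_antitone h4 (hc hy).2.1
    · intro hbot
      have h4 : ({0} : Set R) ∈ @nhds R (sInf C) 0 := by
        have : @nhds R (sInf C) 0 = pure 0 := by
          change sInf C = ⊥ at hbot
          rw [hbot]; exact bot_nhds 0
        rw [this]
        exact Filter.mem_pure.2 rfl
      rw [nhds_sInf] at h4
      have h5 : DirectedOn ((fun t : TopologicalSpace R => @nhds R t 0) ⁻¹'o (· ≥ ·)) C := by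
        rintro _ ⟨s, hs, rfl⟩ _ ⟨t, ht, rfl⟩
        rcases hchain.total hs ht with h | h
        · exact ⟨_, ⟨t, ht, rfl⟩, nhds_mono h, le_refl _⟩
        · exact ⟨_, ⟨s, hs, rfl⟩, le_refl _, nhds_mono h⟩
      rw [Filter.mem_biInf_of_directed h5 ⟨_, ⟨y, hy, rfl⟩⟩] at h4
      obtain ⟨t, ht, h6⟩ := h4
      exact (hC t ht).2.2 (discrete_of_zero t (hC t ht).1 h6)
    · intro z hz
      have hzC : OrderDual.ofDual z ∈ C := ⟨z, hz, rfl⟩
      exact sInf_le hzC
  obtain ⟨τ, hτ0, hmax⟩ := zorn_le_nonempty₀ S ih (OrderDual.toDual τ₀) ⟨h1, h2, h3⟩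
  refine ⟨OrderDual.ofDual τ, ⟨hmax.1.1, hmax.1.2.1, hmax.1.2.2, ?_⟩, hτ0⟩
  intro τ' a b c d
  have := hmax.2 (y := OrderDual.toDual τ') ⟨a, b, c⟩ d
  exact le_antisymm d this

/-! ### The ring -/

noncomputable section

/-- countable dimensional vector space over the field with two elements -/
abbrev V : Type := ℕ →₀ ZMod 2

abbrev S : Type := Module.End (ZMod 2) V × ZMod 2

def VV : Type := V

instance : AddCommGroup VV := inferInstanceAs (AddCommGroup V)

instance : Module (Module.End (ZMod 2) V) VV :=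
  inferInstanceAs (Module (Module.End (ZMod 2) V) V)
instance : Module (ZMod 2) VV := inferInstanceAs (Module (ZMod 2) V)

instance : Module S VV := Module.compHom VV (RingHom.fst (Module.End (ZMod 2) V) (ZMod 2))

instance : Module Sᵐᵒᵖ VV := Module.compHom VV
  (RingHom.fromOpposite (RingHom.snd (Module.End (ZMod 2) V) (ZMod 2))
    (fun _ _ => mul_comm _ _) : Sᵐᵒᵖ →+* ZMod 2)

def toV (v : VV) : V := v
def ofV (v : V) : VV := v

theorem smul_l (s : S) (v : VV) : s • v = ofV (s.1 (toV v)) := rfl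
theorem smul_r (s : S) (v : VV) : (MulOpposite.op s) • v = ofV (s.2 • (toV v)) := rfl

instance : SMulCommClass S Sᵐᵒᵖ VV := ⟨by
  intro s t v
  show ofV (s.1 ((MulOpposite.unop t).2 • (toV v))) = ofV ((MulOpposite.unop t).2 • (s.1 (toV v)))
  rw [map_smul]⟩

def R : Type := TrivSqZeroExt S VV

instance : Ring R := inferInstanceAs (Ring (TrivSqZeroExt S VV))

def fs (x : R) : S := TrivSqZeroExt.fst (R := S) (M := VV) x
def vec (x : R) : V := toV (TrivSqZeroExt.snd (R := S) (M := VV) x)

theorem vec_mul (x y : R) : vec (x * y) = (fs x).1 (vec y) + (fs y).2 • vec x := rfl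
theorem vec_add (x y : R) : vec (x + y) = vec x + vec y := rfl
theorem vec_neg (x : R) : vec (-x) = - vec x := rfl
theorem vec_sub (x y : R) : vec (x - y) = vec x - vec y := by
  rw [sub_eq_add_neg, vec_add, vec_neg, sub_eq_add_neg]
theorem vec_zero : vec 0 = 0 := rfl
theorem fs_mul (x y : R) : fs (x * y) = fs x * fs y := rfl
theorem fs_add (x y : R) : fs (x + y) = fs x + fs y := rfl
theorem fs_neg (x : R) : fs (-x) = - fs x := rfl
theorem fs_sub (x y : R) : fs (x - y) = fs x - fs y := rfl
theorem fs_zero : fs 0 = 0 := rfl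
theorem R_ext (x y : R) (h : fs x = fs y) (h' : vec x = vec y) : x = y :=
  TrivSqZeroExt.ext h h'

/-- the diagonal part -/
def dg (s : S) : R := TrivSqZeroExt.inl (R := S) (M := VV) s
theorem dg_fs (s : S) : fs (dg s) = s := rfl
theorem dg_vec (s : S) : vec (dg s) = 0 := rfl

/-- embedding of the vector space -/
def iv (v : V) : R := TrivSqZeroExt.inr (R := S) (M := VV) (ofV v)
theorem iv_fst (v : V) : fs (iv v) = 0 := rfl
theorem vec_iv (v : V) : vec (iv v) = v := rfl
theorem eq_iv (x : R) (h : fs x = 0) : x = iv (vec x) := R_ext _ _ h rfl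
theorem iv_sub (v w : V) : iv (v - w) = iv v - iv w := by
  apply R_ext
  · rw [fs_sub, iv_fst, iv_fst, iv_fst]
    exact (sub_zero (0 : S)).symm
  · rw [vec_sub, vec_iv, vec_iv, vec_iv]
theorem iv_zero : iv 0 = 0 := rfl

/-- basic subgroups -/
def Bas (F : Finset (V →ₗ[ZMod 2] ZMod 2)) : AddSubgroup R where
  carrier := {x | fs x = 0 ∧ ∀ f ∈ F, f (vec x) = 0}
  add_mem' := by
    rintro x y ⟨h1, h2⟩ ⟨h3, h4⟩
    refine ⟨by rw [fs_add, h1, h3, add_zero], fun f hf => ?_⟩
    rw [vec_add, map_add, h2 f hf, h4 f hf, add_zero]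
  zero_mem' := ⟨rfl, fun f _ => by rw [vec_zero, map_zero]⟩
  neg_mem' := by
    rintro x ⟨h1, h2⟩
    have h3 : fs x + fs (-x) = 0 := by rw [← fs_add, add_neg_cancel, fs_zero]
    rw [h1, zero_add] at h3
    refine ⟨h3, fun f hf => ?_⟩
    rw [vec_neg, map_neg, h2 f hf, neg_zero]

theorem mem_Bas (F : Finset (V →ₗ[ZMod 2] ZMod 2)) (x : R) :
    x ∈ Bas F ↔ fs x = 0 ∧ ∀ f ∈ F, f (vec x) = 0 := Iff.rfl

theorem basis : RingSubgroupsBasis Bas := by
  classical
  refine ⟨?_, ?_, ?_, ?_⟩
  · intro F G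
    refine ⟨F ∪ G, fun x hx => ?_⟩
    rw [mem_Bas] at hx
    exact ⟨⟨hx.1, fun f hf => hx.2 f (Finset.mem_union_left _ hf)⟩,
      ⟨hx.1, fun f hf => hx.2 f (Finset.mem_union_right _ hf)⟩⟩
  · intro F
    refine ⟨∅, ?_⟩
    rintro _ ⟨x, hx, y, hy, rfl⟩
    have h1 : fs x = 0 := hx.1
    have h2 : fs y = 0 := hy.1
    refine ⟨?_, fun f _ => ?_⟩
    · show fs (x * y) = 0
      rw [fs_mul, h1, zero_mul]
    · show f (vec (x * y)) = 0
      rw [vec_mul, h1, h2]
      simp
  · intro x F
    refine ⟨F.image (fun f => f.comp (fs x).1), ?_⟩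
    intro y hy
    refine ⟨?_, fun f hf => ?_⟩
    · show fs (x * y) = 0
      have h2 : fs y = 0 := hy.1
      rw [fs_mul, h2, mul_zero]
    · show f (vec (x * y)) = 0
      have h2 : fs y = 0 := hy.1
      have h3 := hy.2 _ (Finset.mem_image_of_mem _ hf)
      rw [vec_mul, h2]
      simpa using h3
  · intro x F
    refine ⟨F, ?_⟩
    intro y hy
    refine ⟨?_, fun f hf => ?_⟩
    · show fs (y * x) = 0
      have h2 : fs y = 0 := hy.1
      rw [fs_mul, h2, zero_mul]
    · show f (vec (y * x)) = 0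
      have h2 : fs y = 0 := hy.1
      have h3 := hy.2 _ hf
      rw [vec_mul, h2]
      simp [h3]

@[instance_reducible]
def τ₀ : TopologicalSpace R := basis.topology

theorem τ₀_ring : @IsTopologicalRing R τ₀ _ :=
  (@NonarchimedeanRing.toIsTopologicalRing R _ τ₀ basis.nonarchimedean)

theorem Bas_mem (F : Finset (V →ₗ[ZMod 2] ZMod 2)) : (Bas F : Set R) ∈ @nhds R τ₀ 0 :=
  basis.hasBasis_nhds_zero.mem_of_mem trivial

theorem τ₀_t2 : @T2Space R τ₀ := by
  let _ := τ₀
  have _ := τ₀_ring
  apply IsTopologicalAddGroup.t2Space_of_zero_sep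
  intro x hx
  by_cases h : fs x = 0
  · have hv : vec x ≠ 0 := by
      intro h0
      apply hx
      rw [eq_iv x h, h0, iv_zero]
    obtain ⟨n, hn⟩ := Finsupp.ne_iff.1 hv
    refine ⟨Bas {Finsupp.lapply n}, Bas_mem _, ?_⟩
    intro hmem
    exact hn (hmem.2 _ (Finset.mem_singleton_self _))
  · exact ⟨Bas ∅, Bas_mem _, fun hmem => h hmem.1⟩

theorem τ₀_ne : τ₀ ≠ ⊥ := by
  classical
  intro h
  have h1 : ({0} : Set R) ∈ @nhds R τ₀ 0 := by
    rw [h, bot_nhds]; exact Filter.mem_pure.2 rfl
  rw [show τ₀ = basis.topology from rfl, basis.hasBasis_nhds_zero.mem_iff] at h1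
  obtain ⟨F, -, hF⟩ := h1
  let T : V → (F → ZMod 2) := fun v f => f.1 v
  have hT : ¬ Function.Injective T := not_injective_infinite_finite T
  apply hT
  intro v w hvw
  have h2 : iv (v - w) ∈ Bas F := by
    refine ⟨rfl, fun f hf => ?_⟩
    have := congrFun hvw ⟨f, hf⟩
    show f (v - w) = 0
    rw [map_sub, sub_eq_zero]
    exact this
  have h3 : iv (v - w) = 0 := hF h2
  have h4 : vec (iv (v - w)) = vec 0 := by rw [h3]
  rw [vec_iv, vec_zero, sub_eq_zero] at h4
  exact h4

/-! ### Neighbourhoods of zero are syndetic -/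

section
variable (pick : Finset V → V)

open Classical in
def st : ℕ → Finset V
  | 0 => {0}
  | (n + 1) => st n ∪ (st n).image (· + pick (st n))

theorem sum_mem_st : ∀ (n : ℕ) (A : Finset ℕ), (∀ i ∈ A, i < n) →
    ∑ i ∈ A, pick (st pick i) ∈ st pick n := by
  classical
  intro n
  induction n with
  | zero =>
    intro A hA
    have : A = ∅ := Finset.eq_empty_of_forall_notMem fun i hi => absurd (hA i hi) (Nat.not_lt_zero _)
    subst this
    simp [st]
  | succ n ih =>
    intro A hA
    by_cases hn : n ∈ A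
    · rw [← Finset.sum_erase_add A _ hn]
      apply Finset.mem_union_right
      apply Finset.mem_image_of_mem (· + pick (st pick n))
      apply ih
      intro i hi
      have := hA i (Finset.mem_of_mem_erase hi)
      have := Finset.ne_of_mem_erase hi
      omega
    · apply Finset.mem_union_left
      apply ih
      intro i hi
      have := hA i hi
      have : i ≠ n := fun h => hn (h ▸ hi)
      omega

end

theorem char_two (v : V) : v + v = 0 := by
  ext i
  rw [Finsupp.add_apply]
  have : ∀ x : ZMod 2, x + x = 0 := by decide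
  exact this _

variable (τ : TopologicalSpace R) (hτ : IsMaximalRingTopology R τ) (hle : τ ≤ τ₀)

include hτ hle

theorem syndetic (U : Set R) (hU : U ∈ @nhds R τ 0) :
    ∃ F : Finset V, ∀ v : V, ∃ s ∈ F, iv (v - s) ∈ U := by
  classical
  by_contra hcon
  push Not at hcon
  choose pick hpick using hcon
  let f : ℕ → V := fun n => pick (st pick n)
  let φ : Module.End (ZMod 2) V := Finsupp.linearCombination (ZMod 2) f
  have hφ : ∀ v : V, iv (φ v) ∈ U → v = 0 := by
    intro v hv
    by_contra hne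
    have hsupp : v.support.Nonempty := Finsupp.support_nonempty_iff.2 hne
    have h1 : φ v = ∑ i ∈ v.support, f i := by
      show Finsupp.linearCombination (ZMod 2) f v = _
      rw [Finsupp.linearCombination_apply, Finsupp.sum]
      refine Finset.sum_congr rfl fun i hi => ?_
      have h2 : v i = 1 := by
        have : ∀ x : ZMod 2, x ≠ 0 → x = 1 := by decide
        exact this _ (Finsupp.mem_support_iff.1 hi)
      rw [h2, one_smul]
    set m := v.support.max' hsupp with hm
    have hmem : m ∈ v.support := v.support.max'_mem hsupp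
    rw [← Finset.add_sum_erase _ _ hmem] at h1
    have h3 : ∑ i ∈ v.support.erase m, f i ∈ st pick m := by
      apply sum_mem_st
      intro i hi
      exact lt_of_le_of_ne (v.support.le_max' i (Finset.mem_of_mem_erase hi))
        (Finset.ne_of_mem_erase hi)
    have h4 := hpick (st pick m) _ h3
    apply h4
    have h5 : pick (st pick m) - ∑ i ∈ v.support.erase m, f i = φ v := by
      rw [h1, sub_eq_iff_eq_add, add_assoc, char_two, add_zero]
    rw [h5]
    exact hv
  -- left multiplication by `φ` is continuous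
  let _ := τ
  have _ := hτ.isRing
  let e : R := dg ((φ, 0) : S)
  have hcont : Continuous (fun x : R => e * x) := continuous_const.mul continuous_id
  have h1 : (fun x : R => e * x) ⁻¹' U ∈ 𝓝 (0 : R) := by
    apply hcont.continuousAt
    show U ∈ 𝓝 (e * 0)
    rw [mul_zero]; exact hU
  have h2 : (Bas ∅ : Set R) ∈ 𝓝 (0 : R) := nhds_mono hle (Bas_mem ∅)
  apply hτ.nonDiscrete
  apply discrete_of_zero τ hτ.isRing
  refine Filter.mem_of_superset (Filter.inter_mem h1 h2) ?_
  rintro x ⟨hx1, hx2⟩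
  have hx3 : fs x = 0 := hx2.1
  have hx4 : e * x = iv (φ (vec x)) := by
    rw [eq_iv (e * x)]
    · rw [vec_mul, hx3]
      show iv (φ (vec x) + (0 : ZMod 2) • vec e) = _
      rw [zero_smul, add_zero]
    · rw [fs_mul, hx3, mul_zero]
  have hx5 : iv (φ (vec x)) ∈ U := by rw [← hx4]; exact hx1
  rw [Set.mem_singleton_iff, eq_iv x hx3, hφ _ hx5, iv_zero]

theorem not_complete : ¬ IsCompleteTopology R τ := by
  classical
  intro hcomp
  let _ := τ
  have _ := hτ.isRing
  have _ := hτ.isT2
  have hBmem : (Bas ∅ : Set R) ∈ 𝓝 (0 : R) := nhds_mono hle (Bas_mem ∅)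
  have hBopen : IsOpen (Bas ∅ : Set R) := AddSubgroup.isOpen_of_mem_nhds _ hBmem
  have hBclosed : IsClosed (Bas ∅ : Set R) := AddSubgroup.isClosed_of_isOpen _ hBopen
  have hiv : ∀ x ∈ Bas ∅, x = iv (vec x) := fun x hx => eq_iv x hx.1
  have hcpt : IsCompact (Bas ∅ : Set R) := by
    rw [isCompact_iff_ultrafilter_le_nhds']
    intro G hG
    obtain ⟨x, hx⟩ := hcomp (G : Filter R) G.neBot (by
      intro U hU
      have h1 : Tendsto (fun p : R × R => p.1 - p.2) (𝓝 (0, 0)) (𝓝 (0 : R)) := by
        have : Continuous (fun p : R × R => p.1 - p.2) := continuous_sub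
        have h2 := this.tendsto (0, 0)
        simpa using h2
      have h2 := h1 hU
      rw [nhds_prod_eq, Filter.mem_map, Filter.mem_prod_iff] at h2
      obtain ⟨W₁, hW₁, W₂, hW₂, hW⟩ := h2
      obtain ⟨F, hF⟩ := syndetic τ hτ hle (W₁ ∩ W₂) (Filter.inter_mem hW₁ hW₂)
      have hcover : (⋃ s ∈ F, {x : R | x - iv s ∈ W₁ ∩ W₂}) ∈ (G : Filter R) := by
        refine Filter.mem_of_superset hG ?_
        intro x hx
        obtain ⟨s, hs, hs'⟩ := hF (vec x)
        rw [Set.mem_iUnion₂]
        refine ⟨s, hs, ?_⟩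
        show x - iv s ∈ W₁ ∩ W₂
        rw [hiv x hx, ← iv_sub]
        exact hs'
      have hcover' : (⋃ s ∈ (F : Set V), {x : R | x - iv s ∈ W₁ ∩ W₂}) ∈ G := hcover
      rw [Ultrafilter.finite_biUnion_mem_iff F.finite_toSet] at hcover'
      obtain ⟨s, -, hs⟩ := hcover'
      refine ⟨_, hs, ?_⟩
      intro x hx y hy
      have h3 : (x - iv s, y - iv s) ∈ W₁ ×ˢ W₂ := ⟨hx.1, hy.2⟩
      have h4 := hW h3
      simpa using h4)
    refine ⟨x, ?_, hx⟩
    exact hBclosed.mem_of_frequently_of_tendsto (b := (G : Filter R)) (f := id)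
      (Filter.Eventually.frequently hG) hx
  -- a countable compact Hausdorff space has an isolated point
  have : CompactSpace (Bas ∅) := isCompact_iff_compactSpace.1 hcpt
  have hcount : Countable (Bas ∅) := by
    have hinj : Function.Injective (fun x : Bas ∅ => vec x.1) := by
      intro x y h
      apply Subtype.ext
      rw [hiv x.1 x.2, hiv y.1 y.2]
      exact congrArg iv h
    exact hinj.countable
  obtain ⟨x, hx⟩ := nonempty_interior_of_iUnion_of_closed (X := Bas ∅) (ι := Bas ∅)
    (f := fun x => {x}) (fun x => isClosed_singleton) (by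
      ext x; simp)
  have h1 : IsOpen ({x} : Set (Bas ∅)) := by
    have h2 : interior ({x} : Set (Bas ∅)) = {x} := by
      obtain ⟨y, hy⟩ := hx
      have h3 : y = x := Set.mem_singleton_iff.1 (interior_subset hy)
      rw [h3] at hy
      exact Set.Subset.antisymm interior_subset (Set.singleton_subset_iff.2 hy)
    rw [← h2]; exact isOpen_interior
  have h2 : IsOpen ({x.1} : Set R) := by
    have := hBopen.isOpenMap_subtype_val _ h1
    simpa using this
  apply hτ.nonDiscrete
  apply discrete_of_zero τ hτ.isRing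
  have h3 : Continuous (fun y : R => x.1 + y) := continuous_const.add continuous_id
  have h4 := h3.isOpen_preimage _ h2
  have h5 : (fun y : R => x.1 + y) ⁻¹' {x.1} = {0} := by
    ext y; simp
  rw [h5] at h4
  exact h4.mem_nhds rfl

end

/-- There are, in ZFC, a ring and a maximal ring topology on it which is not complete. -/
theorem result : ∃ (R : Type) (_ : Ring R) (τ : TopologicalSpace R),
    IsMaximalRingTopology R τ ∧ ¬ IsCompleteTopology R τ := by
  obtain ⟨τ, hτ, hle⟩ := exists_maximal τ₀ τ₀_ring τ₀_t2 τ₀_ne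
  exact ⟨R, inferInstance, τ, hτ, not_complete τ hτ hle⟩

end Pool.Agent.Results.MP_4aedba_al.NonComplete
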